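import Mathlib

/-!
# A Banach space with an extended M-basis that contains `ℓ^∞`

The space is `E = ℓ^∞ × ℓ^1(Γ)`, where `Γ` is the set of the nonzero elements of `ℓ^∞`.  Put
`ρ(w) = ∑ 2^{-n} |w(n)|`.  The extended M-basis consists of the vectors `(e_n, 0)`, `n ∈ ℕ`, and
`(w, ρ(w) δ_w)`, `w ∈ Γ`; the functionals are `e_n^* - k_n` with `k_n(δ_w) = w(n) / ρ(w)`, and
`δ_w^* / ρ(w)`.
-/

set_option autoImplicit false

open Filter Topology
open scoped ENNReal

namespace Pool.Agent.Results.MP_810de6_an.EllInftyInMBasisSpace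

/-- The family `x` is an extended M-basis of `E`: its closed linear span is `E`, and there is a
total family `f` of bounded functionals on `E` with `f j (x i) = 1` for `i = j` and
`f j (x i) = 0` for `i ≠ j`. The index set `I` is arbitrary. -/
def IsExtendedMBasis (𝕜 : Type*) [RCLike 𝕜] {E I : Type*} [NormedAddCommGroup E]
    [NormedSpace 𝕜 E] (x : I → E) : Prop :=
  (Submodule.span 𝕜 (Set.range x)).topologicalClosure = ⊤ ∧
  ∃ f : I → (E →L[𝕜] 𝕜), (∀ i, f i (x i) = 1) ∧ (∀ i j, i ≠ j → f j (x i) = 0) ∧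
    ∀ v : E, (∀ i, f i v = 0) → v = 0

section General

variable {𝕜 : Type*} [RCLike 𝕜] {X : Type*} [NormedAddCommGroup X] [NormedSpace 𝕜 X]

/-- the weight `ρ(w) = ∑ 2^{-n} |g_n(w)|` -/
noncomputable def rho (g : ℕ → (X →L[𝕜] 𝕜)) (w : X) : ℝ := ∑' n, (1 / 2 : ℝ) ^ n * ‖g n w‖

variable {g : ℕ → (X →L[𝕜] 𝕜)}

lemma summable_rho (hg : ∀ n w, ‖g n w‖ ≤ ‖w‖) (w : X) :
    Summable fun n => (1 / 2 : ℝ) ^ n * ‖g n w‖ := by
  refine Summable.of_nonneg_of_le (fun n => by positivity) (fun n => ?_)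
    (summable_geometric_two.mul_right ‖w‖)
  exact mul_le_mul_of_nonneg_left (hg n w) (by positivity)

lemma le_rho (hg : ∀ n w, ‖g n w‖ ≤ ‖w‖) (n : ℕ) (w : X) :
    (1 / 2 : ℝ) ^ n * ‖g n w‖ ≤ rho g w :=
  (summable_rho hg w).le_tsum n (fun _ _ => by positivity)

lemma rho_pos (hg : ∀ n w, ‖g n w‖ ≤ ‖w‖) (htot : ∀ w, (∀ n, g n w = 0) → w = 0) {w : X}
    (hw : w ≠ 0) : 0 < rho g w := by
  have : ∃ n, g n w ≠ 0 := by
    by_contra h
    push Not at h
    exact hw (htot w h)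
  obtain ⟨n, hn⟩ := this
  refine lt_of_lt_of_le ?_ (le_rho hg n w)
  have := norm_pos_iff.mpr hn
  positivity

/-- the tails `w - ∑_{k < m} g_k(w) s_k` -/
noncomputable def tail (s : ℕ → X) (g : ℕ → (X →L[𝕜] 𝕜)) (m : ℕ) (w : X) : X :=
  w - ∑ k ∈ Finset.range m, g k w • s k

lemma g_tail {s : ℕ → X} (h1 : ∀ n, g n (s n) = 1) (h0 : ∀ n k, k ≠ n → g n (s k) = 0)
    (m n : ℕ) (w : X) : g n (tail s g m w) = if n < m then 0 else g n w := by
  unfold tail
  rw [map_sub, map_sum]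
  by_cases hn : n < m
  · rw [if_pos hn, Finset.sum_eq_single_of_mem n (Finset.mem_range.mpr hn)]
    · rw [map_smul, h1, smul_eq_mul, mul_one, sub_self]
    · intro k _ hk
      rw [map_smul, h0 n k hk, smul_zero]
  · rw [if_neg hn, Finset.sum_eq_zero, sub_zero]
    intro k hk
    have : k ≠ n := fun h => hn (h ▸ Finset.mem_range.mp hk)
    rw [map_smul, h0 n k this, smul_zero]

lemma rho_tail_le {s : ℕ → X} (hg : ∀ n w, ‖g n w‖ ≤ ‖w‖) (h1 : ∀ n, g n (s n) = 1)
    (h0 : ∀ n k, k ≠ n → g n (s k) = 0) (m : ℕ) (w : X) :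
    rho g (tail s g m w) ≤ 2 * (1 / 2 : ℝ) ^ m * ‖w‖ := by
  have hs := summable_rho hg (tail s g m w)
  unfold rho
  rw [← hs.sum_add_tsum_nat_add m]
  have hzero : ∑ n ∈ Finset.range m, (1 / 2 : ℝ) ^ n * ‖g n (tail s g m w)‖ = 0 := by
    apply Finset.sum_eq_zero
    intro n hn
    rw [g_tail h1 h0, if_pos (Finset.mem_range.mp hn), norm_zero, mul_zero]
  rw [hzero, zero_add]
  have hle : ∀ n, (1 / 2 : ℝ) ^ (n + m) * ‖g (n + m) (tail s g m w)‖ ≤
      (1 / 2 : ℝ) ^ n * ((1 / 2 : ℝ) ^ m * ‖w‖) := by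
    intro n
    rw [g_tail h1 h0, if_neg (by omega), pow_add, mul_assoc]
    have := hg (n + m) w
    gcongr
  refine ((summable_nat_add_iff m).mpr hs).tsum_le_tsum hle
    (summable_geometric_two.mul_right _) |>.trans ?_
  rw [tsum_mul_right, tsum_geometric_two, mul_assoc]

/-- the index set of the vectors of the second kind -/
abbrev Idx (X : Type*) [NormedAddCommGroup X] : Type _ := {w : X // w ≠ 0}

/-- the space `ℓ^1(Γ)`, where `Γ` is the set of the nonzero vectors of `X` -/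
abbrev EllOne (𝕜 : Type*) [RCLike 𝕜] (X : Type*) [NormedAddCommGroup X] : Type _ :=
  lp (fun _ : Idx X => 𝕜) 1

omit [NormedSpace 𝕜 X] in
lemma summable_norm_ell (y : EllOne 𝕜 X) : Summable fun i => ‖y i‖ := by
  have h := (lp.memℓp y).summable (by norm_num)
  simpa using h

omit [NormedSpace 𝕜 X] in
lemma norm_ell (y : EllOne 𝕜 X) : ‖y‖ = ∑' i, ‖y i‖ := by
  have h := lp.norm_eq_tsum_rpow (p := 1) (by norm_num) y
  simpa using h

/-- The functional on `ℓ^1(Γ)` given by a bounded family of scalars. -/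
noncomputable def pairing (b : Idx X → 𝕜) (C : ℝ) (hb : ∀ i, ‖b i‖ ≤ C) :
    EllOne 𝕜 X →L[𝕜] 𝕜 :=
  have hsum : ∀ y : EllOne 𝕜 X, Summable fun i => y i * b i := fun y => by
    refine Summable.of_norm_bounded ((summable_norm_ell y).mul_right C) fun i => ?_
    rw [norm_mul]
    exact mul_le_mul_of_nonneg_left (hb i) (norm_nonneg _)
  LinearMap.mkContinuous
    { toFun := fun y => ∑' i, y i * b i
      map_add' := fun y z => by
        rw [← (hsum y).tsum_add (hsum z)]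
        congr 1
        funext i
        rw [lp.coeFn_add, Pi.add_apply, add_mul]
      map_smul' := fun c y => by
        rw [RingHom.id_apply, smul_eq_mul, ← tsum_mul_left]
        congr 1
        funext i
        rw [lp.coeFn_smul, Pi.smul_apply, smul_eq_mul, mul_assoc] } C
    (fun y => by
      have h1 : Summable fun i => ‖y i‖ * C := (summable_norm_ell y).mul_right C
      refine (norm_tsum_le_tsum_norm ?_).trans ?_
      · exact (hsum y).norm
      · rw [norm_ell, mul_comm, ← tsum_mul_right]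
        refine (hsum y).norm.tsum_le_tsum (fun i => ?_) h1
        rw [norm_mul]
        exact mul_le_mul_of_nonneg_left (hb i) (norm_nonneg _))

omit [NormedSpace 𝕜 X] in
lemma pairing_apply (b : Idx X → 𝕜) (C : ℝ) (hb : ∀ i, ‖b i‖ ≤ C) (y : EllOne 𝕜 X) :
    pairing b C hb y = ∑' i, y i * b i := rfl

omit [NormedSpace 𝕜 X] in
lemma pairing_single (b : Idx X → 𝕜) (C : ℝ) (hb : ∀ i, ‖b i‖ ≤ C) [DecidableEq (Idx X)]
    (i : Idx X) (c : 𝕜) : pairing b C hb (lp.single 1 i c) = c * b i := by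
  rw [pairing_apply, tsum_eq_single i]
  · rw [lp.single_apply_self]
  · intro j hj
    rw [lp.single_apply_ne _ _ _ hj, zero_mul]

/-- the vectors of the basis -/
noncomputable def vec [DecidableEq (Idx X)] (s : ℕ → X) (g : ℕ → (X →L[𝕜] 𝕜)) :
    ℕ ⊕ Idx X → X × EllOne 𝕜 X
  | .inl n => (s n, 0)
  | .inr w => ((w : X), lp.single 1 w ((rho g (w : X) : ℝ) : 𝕜))

lemma span_vec [DecidableEq (Idx X)] {s : ℕ → X} (hg : ∀ n w, ‖g n w‖ ≤ ‖w‖)
    (htot : ∀ w, (∀ n, g n w = 0) → w = 0) (h1 : ∀ n, g n (s n) = 1)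
    (h0 : ∀ n k, k ≠ n → g n (s k) = 0) :
    (Submodule.span 𝕜 (Set.range (vec s g))).topologicalClosure = ⊤ := by
  set S := (Submodule.span 𝕜 (Set.range (vec s g))).topologicalClosure with hS
  have hmem : ∀ i, vec s g i ∈ S := fun i =>
    Submodule.le_topologicalClosure _ (Submodule.subset_span ⟨i, rfl⟩)
  have hcl : IsClosed (S : Set (X × EllOne 𝕜 X)) := Submodule.isClosed_topologicalClosure _
  -- the vectors `(w, 0)`
  have hfst : ∀ w : X, ((w, 0) : X × EllOne 𝕜 X) ∈ S := by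
    intro w
    have happ : ∀ m : ℕ, ∃ v ∈ S, ‖v - ((w, 0) : X × EllOne 𝕜 X)‖ ≤
        2 * (1 / 2 : ℝ) ^ m * ‖w‖ := by
      intro m
      have hsum : ∑ k ∈ Finset.range m, g k w • vec s g (.inl k) ∈ S :=
        Submodule.sum_mem _ fun k _ => Submodule.smul_mem _ _ (hmem _)
      have hsum' : ∑ k ∈ Finset.range m, g k w • vec s g (.inl k) =
          ((∑ k ∈ Finset.range m, g k w • s k, 0) : X × EllOne 𝕜 X) := by
        rw [Prod.ext_iff]
        constructor
        · simp [vec, Prod.fst_sum]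
        · simp [vec, Prod.snd_sum]
      by_cases ht : tail s g m w = 0
      · refine ⟨_, hsum, ?_⟩
        have : ∑ k ∈ Finset.range m, g k w • s k = w := by
          have := sub_eq_zero.mp ht
          exact this.symm
        rw [hsum', this, sub_self, norm_zero]
        positivity
      · refine ⟨_, Submodule.add_mem _ (hmem (.inr ⟨_, ht⟩)) hsum, ?_⟩
        have : vec s g (.inr ⟨_, ht⟩) + ∑ k ∈ Finset.range m, g k w • vec s g (.inl k) -
            ((w, 0) : X × EllOne 𝕜 X) =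
            (0, lp.single 1 ⟨_, ht⟩ ((rho g (tail s g m w) : ℝ) : 𝕜)) := by
          rw [hsum']
          simp [vec, tail]
        rw [this, Prod.norm_def, norm_zero, lp.norm_single (by norm_num)]
        have hr := rho_pos hg htot ht
        rw [RCLike.norm_ofReal, abs_of_pos hr, max_eq_right hr.le]
        exact rho_tail_le hg h1 h0 m w
    choose v hv hvn using happ
    refine hcl.mem_of_tendsto (b := atTop) (f := v) ?_ (Eventually.of_forall hv)
    rw [tendsto_iff_norm_sub_tendsto_zero]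
    refine squeeze_zero (fun _ => norm_nonneg _) hvn ?_
    have : Tendsto (fun m : ℕ => (1 / 2 : ℝ) ^ m) atTop (𝓝 0) :=
      tendsto_pow_atTop_nhds_zero_of_lt_one (by norm_num) (by norm_num)
    simpa using (this.const_mul 2).mul_const ‖w‖
  -- the vectors `(0, c δ_w)`
  have hsnd : ∀ (w : Idx X) (c : 𝕜), ((0, lp.single 1 w c) : X × EllOne 𝕜 X) ∈ S := by
    intro w c
    have hr : ((rho g (w : X) : ℝ) : 𝕜) ≠ 0 := by
      exact_mod_cast (rho_pos hg htot w.2).ne'
    have h2 := Submodule.smul_mem S (c / ((rho g (w : X) : ℝ) : 𝕜))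
      (Submodule.sub_mem _ (hmem (.inr w)) (hfst w))
    have h3 : (c / ((rho g (w : X) : ℝ) : 𝕜)) • (vec s g (.inr w) - ((w : X), (0 : EllOne 𝕜 X))) =
        (0, lp.single 1 w c) := by
      rw [Prod.ext_iff]
      constructor
      · simp [vec]
      · simp only [vec, Prod.mk_sub_mk, sub_zero, sub_self, Prod.smul_mk, ← lp.single_smul,
          smul_eq_mul]
        rw [div_mul_cancel₀ _ hr]
    rwa [h3] at h2
  rw [eq_top_iff]
  rintro ⟨w, y⟩ -
  have hy : ((0, y) : X × EllOne 𝕜 X) ∈ S := by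
    have h2 := lp.hasSum_single (p := 1) (by norm_num) y
    have h3 : Tendsto (fun t : Finset (Idx X) => ((0 : X), ∑ i ∈ t, lp.single (E := fun _ : Idx X => 𝕜) 1 i (y i)))
        atTop (𝓝 ((0 : X), y)) := tendsto_const_nhds.prodMk_nhds h2
    refine hcl.mem_of_tendsto h3 (Eventually.of_forall fun t => ?_)
    have : ((0 : X), ∑ i ∈ t, lp.single (E := fun _ : Idx X => 𝕜) 1 i (y i)) =
        ∑ i ∈ t, ((0, lp.single 1 i (y i)) : X × EllOne 𝕜 X) := by
      rw [Prod.ext_iff]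
      constructor
      · simp [Prod.fst_sum]
      · simp [Prod.snd_sum]
    rw [this]
    exact Submodule.sum_mem _ fun i _ => hsnd i _
  have := Submodule.add_mem _ (hfst w) hy
  simpa using this

/-- coordinate functional on `ℓ^1(Γ)` -/
noncomputable def coord (𝕜 : Type*) [RCLike 𝕜] {X : Type*} [NormedAddCommGroup X]
    (w : Idx X) : EllOne 𝕜 X →L[𝕜] 𝕜 := lp.evalCLM 𝕜 (fun _ : Idx X => 𝕜) 1 w

lemma isExtendedMBasis_vec [DecidableEq (Idx X)] {s : ℕ → X} (hg : ∀ n w, ‖g n w‖ ≤ ‖w‖)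
    (htot : ∀ w, (∀ n, g n w = 0) → w = 0) (h1 : ∀ n, g n (s n) = 1)
    (h0 : ∀ n k, k ≠ n → g n (s k) = 0) : IsExtendedMBasis 𝕜 (vec s g) := by
  refine ⟨span_vec hg htot h1 h0, ?_⟩
  have hρ : ∀ w : Idx X, ((rho g (w : X) : ℝ) : 𝕜) ≠ 0 := fun w => by
    exact_mod_cast (rho_pos hg htot w.2).ne'
  have hb : ∀ (n : ℕ) (w : Idx X), ‖g n (w : X) / ((rho g (w : X) : ℝ) : 𝕜)‖ ≤ 2 ^ n := by
    intro n w
    have hr := rho_pos hg htot w.2
    have hle := le_rho hg n (w : X)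
    rw [norm_div, RCLike.norm_ofReal, abs_of_pos hr, div_le_iff₀ hr]
    have h2 : (2 : ℝ) ^ n * ((1 / 2 : ℝ) ^ n * ‖g n (w : X)‖) ≤ 2 ^ n * rho g (w : X) :=
      mul_le_mul_of_nonneg_left hle (by positivity)
    rwa [← mul_assoc, ← mul_pow, show (2 : ℝ) * (1 / 2) = 1 by norm_num, one_pow, one_mul] at h2
  let f : ℕ ⊕ Idx X → (X × EllOne 𝕜 X →L[𝕜] 𝕜) := fun i => match i with
    | .inl n => (g n).comp (ContinuousLinearMap.fst 𝕜 X (EllOne 𝕜 X)) -
        (pairing (fun w : Idx X => g n (w : X) / ((rho g (w : X) : ℝ) : 𝕜)) (2 ^ n) (hb n)).comp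
          (ContinuousLinearMap.snd 𝕜 X (EllOne 𝕜 X))
    | .inr w => (((rho g (w : X) : ℝ) : 𝕜))⁻¹ •
        (coord 𝕜 w).comp (ContinuousLinearMap.snd 𝕜 X (EllOne 𝕜 X))
  have hfl : ∀ n v, f (.inl n) v = g n v.1 -
      pairing (fun w : Idx X => g n (w : X) / ((rho g (w : X) : ℝ) : 𝕜)) (2 ^ n) (hb n) v.2 :=
    fun n v => rfl
  have hfr : ∀ w v, f (.inr w) v = (((rho g (w : X) : ℝ) : 𝕜))⁻¹ * v.2 w := fun n v => rfl
  refine ⟨f, ?_, ?_, ?_⟩
  · rintro (n | w)
    · rw [hfl]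
      simp [vec, h1]
    · rw [hfr]
      simp only [vec]
      rw [lp.single_apply_self, inv_mul_cancel₀ (hρ w)]
  · rintro (n | w) (m | u) hne
    · rw [hfl]
      have : n ≠ m := fun h => hne (by rw [h])
      simp [vec, h0 m n this]
    · rw [hfr]
      simp [vec]
    · rw [hfl]
      simp only [vec]
      rw [pairing_single, mul_div_cancel₀ _ (hρ w), sub_self]
    · rw [hfr]
      simp only [vec]
      have : u ≠ w := fun h => hne (by rw [h])
      rw [lp.single_apply_ne _ _ _ this, mul_zero]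
  · rintro ⟨w, y⟩ hv
    have hy : y = 0 := by
      apply lp.ext
      funext i
      have h2 := hv (.inr i)
      rw [hfr] at h2
      have h3 := (mul_eq_zero.mp h2).resolve_left (inv_ne_zero (hρ i))
      simpa using h3
    subst hy
    have hw : w = 0 := by
      apply htot
      intro n
      have h2 := hv (.inl n)
      rw [hfl, map_zero, sub_zero] at h2
      exact h2
    rw [hw]
    rfl

end General

/-- the space `ℓ^∞` -/
abbrev EllInfty (𝕜 : Type) [RCLike 𝕜] : Type := lp (fun _ : ℕ => 𝕜) ∞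

/-- There is a Banach space over `𝕜 = ℝ` or `𝕜 = ℂ` that has an extended M-basis and contains a
closed subspace linearly homeomorphic to `ℓ^∞`. -/
theorem result (𝕜 : Type) [RCLike 𝕜] :
    ∃ (E : Type) (_ : NormedAddCommGroup E) (_ : NormedSpace 𝕜 E), CompleteSpace E ∧
      (∃ (I : Type) (x : I → E), IsExtendedMBasis 𝕜 x) ∧
      ∃ G : Submodule 𝕜 E, IsClosed (G : Set E) ∧
        Nonempty (G ≃L[𝕜] lp (fun _ : ℕ => 𝕜) ∞) := by
  classical
  let s : ℕ → EllInfty 𝕜 := fun n => lp.single ∞ n 1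
  let g : ℕ → (EllInfty 𝕜 →L[𝕜] 𝕜) := fun n => lp.evalCLM 𝕜 (fun _ : ℕ => 𝕜) ∞ n
  have hga : ∀ n w, g n w = w n := fun _ _ => rfl
  have hg : ∀ n w, ‖g n w‖ ≤ ‖w‖ := fun n w => lp.norm_apply_le_norm (by norm_num) w n
  have htot : ∀ w, (∀ n, g n w = 0) → w = 0 := fun w h => lp.ext (funext h)
  have h1 : ∀ n, g n (s n) = 1 := fun n => by rw [hga, lp.single_apply_self]
  have h0 : ∀ n k, k ≠ n → g n (s k) = 0 := fun n k hk => by
    rw [hga, lp.single_apply_ne _ _ _ hk.symm]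
  refine ⟨EllInfty 𝕜 × EllOne 𝕜 (EllInfty 𝕜), inferInstance, inferInstance, inferInstance,
    ⟨_, vec s g, isExtendedMBasis_vec hg htot h1 h0⟩, ?_⟩
  have hclosed : IsClosed {v : EllInfty 𝕜 × EllOne 𝕜 (EllInfty 𝕜) | v.2 = 0} :=
    isClosed_eq continuous_snd continuous_const
  let G : Submodule 𝕜 (EllInfty 𝕜 × EllOne 𝕜 (EllInfty 𝕜)) :=
    LinearMap.ker (LinearMap.snd 𝕜 (EllInfty 𝕜) (EllOne 𝕜 (EllInfty 𝕜)))
  refine ⟨G, hclosed, ⟨?_⟩⟩
  exact
    { toFun := fun v => v.1.1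
      invFun := fun w => ⟨(w, 0), rfl⟩
      map_add' := fun _ _ => rfl
      map_smul' := fun _ _ => rfl
      left_inv := fun v => by
        apply Subtype.ext
        exact Prod.ext rfl (show (0 : EllOne 𝕜 (EllInfty 𝕜)) = v.1.2 from (v.2).symm)
      right_inv := fun _ => rfl
      continuous_toFun := continuous_fst.comp continuous_subtype_val
      continuous_invFun := Continuous.subtype_mk (continuous_id.prodMk continuous_const) _ }

end Pool.Agent.Results.MP_810de6_an.EllInftyInMBasisSpace
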